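import Mathlib
import Pool.Agent.X300.RB.Cyc

/-!
# Cycle class maps of `A × Z` for almost all abelian varieties `A`

Let `A` be a product of powers of abelian varieties of dimensions `g i` over the field with `q`
elements (over an extension with `Q = q ^ s` elements and up to isogeny), given by their Weil
polynomials `f i`, and let `Z` be any variety over the field with `Q` elements, singular or not,
proper or not.

The theorem says that for almost all families `f` of Weil polynomials (all but a proportion
`O (q ^ (-1 / 6) log q)`, for all isogeny classes as well as for the ordinary ones) Jannsen's
conjecture for the cycle class maps of `A × Z` is equivalent to the one for `Z`, for all `Z` whose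
Frobenius eigenvalues lie, up to powers, in a group generated by the nonzero elements of the number
field `E` and `r < g i` further numbers. More precisely the map
`cl_i : CH_i(A × Z) ⊗ ℚ_ℓ → H_{2 i}(A × Z, ℚ_ℓ(i))^G` is an isomorphism if and only if the maps `cl_b`
of `Z` are, for `i - dim A ≤ b ≤ i`.

The groups are written as in the case of cohomology (`RelData`); only the bidegrees `(2 j, j)` matter.
For an arbitrary `Z` one takes for the group of `Z` in the bidegree `(2 j, j)` the group `CH_{-j}(Z)`
or `H_{-2 j}(Z, -j)`, and for the group of `A × Z` the group `CH_{dim A - j}(A × Z)` or
`H_{2 (dim A - j)}(A × Z, dim A - j)`. Frobenius on `A` operates by pull-back, Frobenius on `Z` by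
the inverse of the push-forward; on cycles, and on the Galois invariants in `ℓ`-adic homology, their
product is then the multiplication by `Q ^ j`. The Chow groups are tensored with `ℚ_ℓ`.
The condition on the operation of Frobenius of `Z` on the Chow groups of `A × Z` (`HasCycleRank` for
`T`) is known if the motive with compact supports of `Z` is built from motives of curves and abelian
varieties; the condition for `R` is a condition on the Frobenius eigenvalues of `Z`.
-/

set_option autoImplicit false

namespace Pool.Agent.Results.MP_3af9db_ag.AlmostAllFactorsCycleClasses

open Pool.Agent.Y156.L Pool.Agent.X300.RB

/-- Let `r < g i` for all `i` and let `E` be a number field. Almost all families of abelian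
varieties of dimensions `g i` over the field with `q` elements, given by their Weil polynomials
`f i`, have the property `CyclesForRankOver E q r f`: for products `A` of powers of these abelian
varieties and all `Z` of rank at most `r` over `E`, all cycle class maps of `A × Z` are isomorphisms
onto the Galois invariants if and only if all those of `Z` are. -/
theorem result {I : Type} [Fintype I] (g : I → ℕ) (r : ℕ) (hr : ∀ i, r < g i)
    (E : IntermediateField ℚ ℂ) [FiniteDimensional ℚ E] :
    AlmostAll g fun q f => CyclesForRankOver E q r f :=
  count_cycles g r hr E

end Pool.Agent.Results.MP_3af9db_ag.AlmostAllFactorsCycleClasses
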