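import Pool.Agent.X312.FK.ChowAct

/-!
# Gap laws for the cycle class maps of the varieties `Y × X ^ n`, `Y` arbitrary

Let `k` be an algebraic closure of a finite field and `X` a smooth projective variety over `k`,
such that the numerically trivial self-correspondences of its powers are nilpotent, with
`ℚ_ℓ`-coefficients (by Kimura this holds if the Chow motive of `X` is finite-dimensional, for
example for products of curves and for abelian varieties), and such that `ℓ`-adic homological and
numerical equivalence agree on its powers (known for abelian varieties and products of curves and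
suitable `ℓ` by Clozel). Let `Y` be **any variety** over `k`, which need not be smooth, proper or
irreducible. Consider the cycle class maps

`cl_i : CH_i(Y × Z) ⊗ ℚ_ℓ → H_(2 i)(Y × Z, ℚ_ℓ(i))^T`, `i ≥ 0`,

where `( )^T` denotes the Tate classes, that is the classes fixed by an open subgroup of the
Galois group of `k` over a finite field of definition. Let `ρ(Z)` be the rank of the cycles of all
codimensions on `Z` modulo numerical equivalence, `b` the sum of the Betti numbers of `X`, and
`ε_n = 4 (m + 3) b ^ (m + 5) log (n + 1) / n`. For all `m ≥ 1`:

(1) **all the maps** `cl_i` **are injective for** `Y × X ^ m`, **or for all** `n ≥ 1` **the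
kernels of the maps** `cl_i` **for** `Y × X ^ n` **have together dimension at least** `(1 - ε_n)
ρ(X ^ n)`;

(2) **all the maps** `cl_i` **are surjective for** `Y × X ^ m`, **or for all** `n ≥ 1` **the
cokernels of the maps** `cl_i` **for** `Y × X ^ n` **have together dimension at least** `(1 - ε_n)
ρ(X ^ n)`.

The conjecture Q1 over all finite fields is equivalent to the bijectivity of the maps `cl_i` over
`k`.

The proof. Modulo numerical equivalence the self-correspondences of `P = X ^ m` form a
finite-dimensional algebra, and the numerically trivial ones are nilpotent, so that idempotents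
can be lifted. Let `T` be an additive functor, for example the kernel or the cokernel of `c`,
which does not vanish on `P`. One takes an idempotent correspondence `g` on `P` of minimal rank
with `g T(P) ≠ 0` and an element `z ≠ 0` of `g T(P)`. The correspondences `x` with `x z = 0` have
a nilpotent compression `g x g`, so the trace of `g x` vanishes, and so `dim T(Z)` is at least the
rank of the trace form `(u, v) ↦ tr (g v u)` on the correspondences between `P` and `Z`; for `Z =
X ^ n` this rank is compared with `ρ(X ^ n)` by the log-convexity of the sequence of the ranks of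
the intersection forms and by the symmetric group.
-/

set_option autoImplicit false

open CategoryTheory AlgebraicGeometry

universe u v w

namespace Pool.Agent.Results.MP_3af9db_ag.FunctorGapLaws

open Pool.Agent.H914 VarClass Obj WeilCohomology
open Pool.Agent.X312.FK (ChowData ChowModule IsRegulator IsTate IndepMod gapBound)
open Pool.Agent.Y133.Half (pw cycRank)

variable {k : Type u} [Field k] {𝒱 : VarClass k} {ops : CycleOps 𝒱}
  {W : WeilCohomology.{u, v} ops}

/-- The sum of the Betti numbers of `X`. -/
noncomputable def totalBetti (W : WeilCohomology.{u, v} ops) (X : 𝒱.Obj) : ℕ :=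
  Module.finrank W.K (W.H X)

/-- **The gap laws for cycle class maps.** Here `C` is the category of Chow correspondences with
coefficients in `ℚ_ℓ`, `c` is the cycle class map `⊕_i CH_i(Y × Z) ⊗ ℚ_ℓ → ⊕_i H_(2 i)(Y × Z, ℚ_ℓ(i))`
(and may be any natural transformation between functors), `ρ` is the action of the Galois group `G`,
and `pw X m` is the product of `m + 1` copies of `X`. -/
theorem result (C : ChowData W) (hC : C.IsChow) (S T : ChowModule C) (hS : S.IsFunctor)
    (hT : T.IsFunctor) (c : ∀ Z : 𝒱.Obj, S.M Z → T.M Z) (hc : IsRegulator S T c) {G : Type v}
    [Group G] (ρ : ∀ Z : 𝒱.Obj, G → T.M Z → T.M Z) (hρ : T.IsAction ρ) (X : 𝒱.Obj)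
    (hX : ∀ n : ℕ, C.NumNil (pw X n)) (hD : ∀ n : ℕ, HomEqNum W (pw X n)) (m : ℕ) :
    -- injectivity
    ((∀ x : S.M (pw X m), c _ x = 0 → x = 0) ∨
    ∀ n : ℕ, IndepMod {x : S.M (pw X n) | c _ x = 0} (⊥ : Submodule W.K (S.M (pw X n)))
      (gapBound (totalBetti W X) (cycRank ops (pw X n)) m n)) ∧
    -- surjectivity onto the Tate classes
    ((∀ y : T.M (pw X m), IsTate (ρ _) y → ∃ x, c _ x = y) ∨
    ∀ n : ℕ, IndepMod {y : T.M (pw X n) | IsTate (ρ _) y}
      (Submodule.span W.K (Set.range (c (pw X n))))
      (gapBound (totalBetti W X) (cycRank ops (pw X n)) m n)) :=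
  Pool.Agent.X312.FK.iso_chow hρ hC hS hT hc X hX hD m

end Pool.Agent.Results.MP_3af9db_ag.FunctorGapLaws
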